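import Pool.Agent.helper34.AC.Spec

/-!
Module MRK of project ac: (MP_e0bd72_co): partitions with a marked block.
-/

set_option autoImplicit false

namespace Pool.Agent.helper34.AC

theorem MRK_mem_col {V : Type} (G : SimpleGraph V) (U : Finset V) (P : Finset (Finset V)) :
    P ∈ col G U ↔ IsCol G U P := by
  classical
  unfold col
  rw [Finset.mem_filter]
  refine ⟨fun h => h.2, fun h => ⟨?_, h⟩⟩
  rw [Finset.mem_powerset]
  intro S hS
  rw [Finset.mem_powerset]
  exact (h.1 S hS).2.1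

theorem MRK_erase {V : Type} [DecidableEq V] (G : SimpleGraph V) (U S : Finset V)
    (P : Finset (Finset V)) (h : IsCol G U P) (hS : S ∈ P) : IsCol G (U \ S) (P.erase S) := by
  constructor
  · intro T hT
    rw [Finset.mem_erase] at hT
    obtain ⟨h1, h2, h3⟩ := h.1 T hT.2
    refine ⟨h1, fun v hv => ?_, h3⟩
    rw [Finset.mem_sdiff]
    refine ⟨h2 hv, fun hvS => hT.1 ?_⟩
    exact (h.2 v (h2 hv)).unique ⟨hT.2, hv⟩ ⟨hS, hvS⟩
  · intro v hv
    rw [Finset.mem_sdiff] at hv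
    obtain ⟨T, ⟨hT, hvT⟩, huniq⟩ := h.2 v hv.1
    refine ⟨T, ⟨?_, hvT⟩, fun T' hT' => huniq T' ⟨Finset.mem_of_mem_erase hT'.1, hT'.2⟩⟩
    rw [Finset.mem_erase]
    refine ⟨?_, hT⟩
    rintro rfl
    exact hv.2 hvT

theorem MRK_insert {V : Type} [DecidableEq V] (G : SimpleGraph V) (U S : Finset V)
    (P : Finset (Finset V)) (hSU : S ⊆ U) (hS : S.Nonempty) (hst : Stab G S)
    (h : IsCol G (U \ S) P) : IsCol G U (insert S P) := by
  constructor
  · intro T hT
    rw [Finset.mem_insert] at hT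
    rcases hT with rfl | hT
    · exact ⟨hS, hSU, hst⟩
    · obtain ⟨h1, h2, h3⟩ := h.1 T hT
      exact ⟨h1, h2.trans Finset.sdiff_subset, h3⟩
  · intro v hv
    by_cases hvS : v ∈ S
    · refine ⟨S, ⟨Finset.mem_insert_self _ _, hvS⟩, ?_⟩
      rintro T ⟨hT, hvT⟩
      rw [Finset.mem_insert] at hT
      rcases hT with rfl | hT
      · rfl
      · exact absurd hvS (Finset.mem_sdiff.mp ((h.1 T hT).2.1 hvT)).2
    · obtain ⟨T, ⟨hT, hvT⟩, huniq⟩ := h.2 v (Finset.mem_sdiff.mpr ⟨hv, hvS⟩)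
      refine ⟨T, ⟨Finset.mem_insert_of_mem hT, hvT⟩, ?_⟩
      rintro T' ⟨hT', hvT'⟩
      rw [Finset.mem_insert] at hT'
      rcases hT' with rfl | hT'
      · exact absurd hvT' hvS
      · exact huniq T' ⟨hT', hvT'⟩

theorem MRK : MRK_stmt := by
  intro V _ G U S f hSU hS hst
  refine Finset.sum_bij' (fun P _ => P.erase S) (fun P _ => insert S P) ?_ ?_ ?_ ?_ ?_
  · intro P hP
    rw [Finset.mem_filter, MRK_mem_col] at hP
    rw [MRK_mem_col]
    exact MRK_erase G U S P hP.1 hP.2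
  · intro P hP
    rw [MRK_mem_col] at hP
    rw [Finset.mem_filter, MRK_mem_col]
    exact ⟨MRK_insert G U S P hSU hS hst hP, Finset.mem_insert_self _ _⟩
  · intro P hP
    rw [Finset.mem_filter] at hP
    exact Finset.insert_erase hP.2
  · intro P hP
    rw [MRK_mem_col] at hP
    refine Finset.erase_insert fun hmem => ?_
    obtain ⟨v, hv⟩ := hS
    exact (Finset.mem_sdiff.mp ((hP.1 S hmem).2.1 hv)).2 hv
  · intro P hP
    rw [Finset.mem_filter] at hP
    rw [Finset.insert_erase hP.2]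

end Pool.Agent.helper34.AC
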